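import Pool.Agent.Lib.MP_e6fef2_lc.V.Iface
import Pool.Agent.Lib.MP_c5d73d_lc.F.H36.Reals

/-!
# V_MM: `MM(ω₁)` fails in `V^B`
-/

universe u

open Cardinal

namespace Pool.Agent.Lib.MP_e6fef2_lc.H19

open Pool.Agent.Lib.MP_100a6c_lc
open Pool.Agent.Lib.MP_c5d73d_lc.F (isOm isPow isPreo comp isDense isFilt)
open BName
open H36 (om)

theorem v_mm (h1 : VOm1Statement.{u}) (h2 : VPosStatement.{u}) (h3 : VSizeStatement.{u})
    (h4 : VSspStatement.{u}) (h5 : VNfaStatement.{u}) : VMmStatement.{u} := by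
  intro B _ X _ v hccv hne hsize hssp hnfa
  have e1 : isOm (VB B) (check om) = ⊤ := Pool.Agent.Lib.MP_c5d73d_lc.F.H36.isOm_om
  have e2 := (h1 B hccv).1
  have e3 := (h2 B X v).2.2.2.2 hne
  have e4 := h3 B X v hsize
  have e5 := h4 B X v hccv hssp
  have e6 := h5 B X v hnfa
  refine le_bot_iff.1 ?_
  refine (iInf_le_of_le (check om) <| iInf_le_of_le (check om1) <| iInf_le_of_le (Pn v) <|
    iInf_le_of_le (rn B X) le_rfl).trans ?_
  rw [e1, e2, e3, e4, e5, e6]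
  simp

end Pool.Agent.Lib.MP_e6fef2_lc.H19
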